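import Pool.Agent.H91.SP.FinQuad

/-!
# Project CQ, even degree: Furtwängler's theorem for the solutions with `a : b : c = 1 : ω : ω²` above `p`

`K` any number field, `p` odd, unramified in `K` and not dividing the class number of `K`. If
`a ^ p + b ^ p + c ^ p = 0` is a solution in the first case and `a b + b c + c a` is divisible by every place
`v ∣ p` (after scaling `a, b, c` to units at `v`), then `N(Q) ^ (p - 1) = 1` modulo `p ^ 2` for every prime ideal
`Q`, not above `p`, at which the valuations of `a, b, c` are not all equal (`om_fin`). As in the field of two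
elements `u + v + 1 = 0` has no solution with `u v ≠ 0`, such a solution does not exist if `K` has a place with
residue field `𝔽₂` and `p` is not a Wieferich prime (`even_f2`).

PROOF. `fin_core` with `x = y = k = 1`, `z = 0`: `a / (a + b) + a / (a + c) - 1 = (a ^ 2 - b c) / ((a + b) (a + c))`
and `a ^ 2 - b c = a (a + b + c) - (a b + b c + c a)`.
-/

namespace H65CQ

open NumberField IsDedekindDomain H91SP

theorem om_fin_aux (p : ℕ) [Fact p.Prime] (K : Type*) [Field K] [NumberField K]
    (hp2 : p ≠ 2) (hu : Unr p K) (hcl : ¬ p ∣ NumberField.classNumber K)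
    (a b c : K) (ha : a ≠ 0) (hb : b ≠ 0) (hc : c ≠ 0) (h : a ^ p + b ^ p + c ^ p = 0)
    (hfc : ∀ v : HeightOneSpectrum (𝓞 K), (p : 𝓞 K) ∈ v.asIdeal →
      v.valuation K a = v.valuation K b ∧ v.valuation K b = v.valuation K c)
    (hom : ∀ v : HeightOneSpectrum (𝓞 K), (p : 𝓞 K) ∈ v.asIdeal →
      v.valuation K (a * b + b * c + c * a) < v.valuation K a ^ 2)
    (Q : HeightOneSpectrum (𝓞 K)) (hQp : (p : 𝓞 K) ∉ Q.asIdeal)
    (h1 : Q.valuation K a < Q.valuation K b) (h2 : Q.valuation K b = Q.valuation K c) :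
    p ^ 2 ∣ Nat.card (𝓞 K ⧸ Q.asIdeal) ^ (p - 1) - 1 := by
  obtain ⟨l, hl0, hl, hlQ⟩ := scale p K Q hQp a b ha hb
  have hQb : Q.valuation K b ≠ 0 := (Valuation.ne_zero_iff _).2 hb
  have hva : ∀ v : HeightOneSpectrum (𝓞 K), v.valuation K a ≠ 0 := fun v =>
    (Valuation.ne_zero_iff _).2 ha
  have hloc : ∀ v : HeightOneSpectrum (𝓞 K), (p : 𝓞 K) ∈ v.asIdeal →
      v.valuation K (a / l) = 1 ∧ v.valuation K (b / l) = 1 ∧ v.valuation K (c / l) = 1 := by
    intro v hv
    obtain ⟨e1, e2⟩ := hfc v hv
    refine ⟨?_, ?_, ?_⟩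
    · rw [map_div₀, hl v hv, div_self (hva v)]
    · rw [map_div₀, hl v hv, ← e1, div_self (hva v)]
    · rw [map_div₀, hl v hv, ← e2, ← e1, div_self (hva v)]
  have hom' : ∀ v : HeightOneSpectrum (𝓞 K), (p : 𝓞 K) ∈ v.asIdeal →
      v.valuation K ((a / l) * (b / l) + (b / l) * (c / l) + (c / l) * (a / l)) < 1 := by
    intro v hv
    have e : (a / l) * (b / l) + (b / l) * (c / l) + (c / l) * (a / l)
        = (a * b + b * c + c * a) / l ^ 2 := by
      field_simp
    rw [e, map_div₀, map_pow, hl v hv]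
    exact (div_lt_one₀ (zero_lt_iff.mpr (pow_ne_zero 2 (hva v)))).mpr (hom v hv)
  have hsum : (a / l) ^ p + (b / l) ^ p + (c / l) ^ p = 0 := by
    rw [div_pow, div_pow, div_pow, ← add_div, ← add_div, h, zero_div]
  have ha' : a / l ≠ 0 := div_ne_zero ha hl0
  have hb' : b / l ≠ 0 := div_ne_zero hb hl0
  have hc' : c / l ≠ 0 := div_ne_zero hc hl0
  have hQa' : Q.valuation K (a / l) < 1 := by
    rw [map_div₀, hlQ]
    exact (div_lt_one₀ (zero_lt_iff.mpr hQb)).mpr h1
  have hQb' : Q.valuation K (b / l) = 1 := by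
    rw [map_div₀, hlQ, div_self hQb]
  have hQc' : Q.valuation K (c / l) = 1 := by
    rw [map_div₀, hlQ, ← h2, div_self hQb]
  generalize a / l = A at *
  generalize b / l = B at *
  generalize c / l = C at *
  refine fin_core p K hp2 hu hcl A B C ha' hb' hc' hsum hloc 1 1 0 1 ?_ ?_ Q hQp
    hQa' hQb' hQc' (Or.inl rfl)
  · intro hd
    have h3 := Int.le_of_dvd one_pos hd
    have h4 : 1 < p := (Fact.out : p.Prime).one_lt
    omega
  · intro v hv
    obtain ⟨vA, vB, vC⟩ := hloc v hv
    have hs : v.valuation K (A + B + C) < 1 := val_sum_lt p v hv A B C vA.le vB.le vC.le hsum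
    have hAB : v.valuation K (A + B) = 1 := by
      have e : A + B = -C + (A + B + C) := by ring
      rw [e, Valuation.map_add_eq_of_lt_left]
      · rw [Valuation.map_neg, vC]
      · rw [Valuation.map_neg, vC]; exact hs
    have hAC : v.valuation K (A + C) = 1 := by
      have e : A + C = -B + (A + B + C) := by ring
      rw [e, Valuation.map_add_eq_of_lt_left]
      · rw [Valuation.map_neg, vB]
      · rw [Valuation.map_neg, vB]; exact hs
    have hAB0 : A + B ≠ 0 := by
      intro h0; rw [h0, map_zero] at hAB; exact zero_ne_one hAB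
    have hAC0 : A + C ≠ 0 := by
      intro h0; rw [h0, map_zero] at hAC; exact zero_ne_one hAC
    have e : ((1 : ℤ) : K) * (A / (A + B)) + ((1 : ℤ) : K) * (A / (A + C))
        + ((0 : ℤ) : K) * ((B - C) / (B + C)) - ((1 : ℤ) : K)
        = (A * (A + B + C) + -(A * B + B * C + C * A)) / ((A + B) * (A + C)) := by
      rw [Int.cast_one, Int.cast_zero, zero_mul, add_zero, one_mul, one_mul]
      field_simp
      ring
    rw [e, map_div₀, map_mul, hAB, hAC, one_mul, div_one]
    refine Valuation.map_add_lt _ ?_ ?_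
    · rw [map_mul, vA, one_mul]; exact hs
    · rw [Valuation.map_neg]; exact hom' v hv

/-- Furtwängler's theorem for the solutions which are `1 : ω : ω²` at the places above `p` -/
theorem om_fin (p : ℕ) [Fact p.Prime] (K : Type*) [Field K] [NumberField K]
    (hp2 : p ≠ 2) (hu : Unr p K) (hcl : ¬ p ∣ NumberField.classNumber K)
    (a b c : K) (ha : a ≠ 0) (hb : b ≠ 0) (hc : c ≠ 0) (h : a ^ p + b ^ p + c ^ p = 0)
    (hfc : ∀ v : HeightOneSpectrum (𝓞 K), (p : 𝓞 K) ∈ v.asIdeal →
      v.valuation K a = v.valuation K b ∧ v.valuation K b = v.valuation K c)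
    (hom : ∀ v : HeightOneSpectrum (𝓞 K), (p : 𝓞 K) ∈ v.asIdeal →
      v.valuation K (a * b + b * c + c * a) < v.valuation K a ^ 2)
    (Q : HeightOneSpectrum (𝓞 K)) (hQp : (p : 𝓞 K) ∉ Q.asIdeal)
    (hQ : ¬ (Q.valuation K a = Q.valuation K b ∧ Q.valuation K b = Q.valuation K c)) :
    p ^ 2 ∣ Nat.card (𝓞 K ⧸ Q.asIdeal) ^ (p - 1) - 1 := by
  have hp : p.Prime := Fact.out
  have key : ∀ x y z : K, x ^ p + y ^ p + z ^ p = 0 →
      Q.valuation K x ≤ max (Q.valuation K y) (Q.valuation K z) := by
    intro x y z hxyz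
    have h1 : x ^ p = -(y ^ p + z ^ p) := by linear_combination hxyz
    have h2 : Q.valuation K x ^ p ≤ max (Q.valuation K y ^ p) (Q.valuation K z ^ p) := by
      rw [← map_pow, h1, Valuation.map_neg, ← map_pow, ← map_pow]
      exact Valuation.map_add _ _ _
    by_contra hcon
    push Not at hcon
    obtain ⟨h3, h4⟩ := max_lt_iff.mp hcon
    have h5 : Q.valuation K y ^ p < Q.valuation K x ^ p := pow_lt_pow_left₀ h3 zero_le hp.ne_zero
    have h6 : Q.valuation K z ^ p < Q.valuation K x ^ p := pow_lt_pow_left₀ h4 zero_le hp.ne_zero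
    exact absurd h2 (not_le.mpr (max_lt h5 h6))
  have k1 := key a b c h
  have k2 := key b a c (by linear_combination h)
  have k3 := key c a b (by linear_combination h)
  rcases lt_trichotomy (Q.valuation K a) (Q.valuation K b) with hab | hab | hab
  · have h1 : Q.valuation K b ≤ Q.valuation K c := by
      rcases le_max_iff.mp k2 with h0 | h0
      · exact absurd hab (not_lt.mpr h0)
      · exact h0
    have h2 : Q.valuation K c ≤ Q.valuation K b := by
      rcases le_max_iff.mp k3 with h0 | h0
      · exact h0.trans hab.le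
      · exact h0
    exact om_fin_aux p K hp2 hu hcl a b c ha hb hc h hfc hom Q hQp hab (le_antisymm h1 h2)
  · have h1 : Q.valuation K c ≤ Q.valuation K a := by
      rcases le_max_iff.mp k3 with h0 | h0
      · exact h0
      · exact h0.trans hab.symm.le
    have h2 : Q.valuation K c ≠ Q.valuation K a := fun h0 => hQ ⟨hab, by rw [← hab, h0]⟩
    refine om_fin_aux p K hp2 hu hcl c a b hc ha hb (by linear_combination h)
      (fun v hv => ⟨by rw [(hfc v hv).1, (hfc v hv).2], (hfc v hv).1⟩) (fun v hv => ?_) Q hQp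
      (lt_of_le_of_ne h1 h2) hab
    have e : c * a + a * b + b * c = a * b + b * c + c * a := by ring
    rw [e, ← (hfc v hv).2, ← (hfc v hv).1]
    exact hom v hv
  · have h1 : Q.valuation K a ≤ Q.valuation K c := by
      rcases le_max_iff.mp k1 with h0 | h0
      · exact absurd hab (not_lt.mpr h0)
      · exact h0
    have h2 : Q.valuation K c ≤ Q.valuation K a := by
      rcases le_max_iff.mp k3 with h0 | h0
      · exact h0
      · exact h0.trans hab.le
    refine om_fin_aux p K hp2 hu hcl b a c hb ha hc (by linear_combination h)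
      (fun v hv => ⟨(hfc v hv).1.symm, by rw [(hfc v hv).1, (hfc v hv).2]⟩) (fun v hv => ?_) Q hQp hab
      (le_antisymm h1 h2)
    have e : b * a + a * c + c * b = a * b + b * c + c * a := by ring
    rw [e, ← (hfc v hv).1]
    exact hom v hv

/-- the same conclusion in the form used by the reduction modulo the places above `p` -/
theorem om_of_t (p : ℕ) [Fact p.Prime] (K : Type*) [Field K] [NumberField K] (hp2 : p ≠ 2)
    (a b c : K) (ha : a ≠ 0) (h : a ^ p + b ^ p + c ^ p = 0)
    (v : HeightOneSpectrum (𝓞 K)) (hv : (p : 𝓞 K) ∈ v.asIdeal)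
    (hfc : v.valuation K a = v.valuation K b ∧ v.valuation K b = v.valuation K c)
    (ht : v.valuation K (((a - b) / c) ^ 2 + 3) < 1) :
    v.valuation K (a * b + b * c + c * a) < v.valuation K a ^ 2 := by
  obtain ⟨e1, e2⟩ := hfc
  have hva : v.valuation K a ≠ 0 := (Valuation.ne_zero_iff _).2 ha
  have hc : c ≠ 0 := by
    intro h0
    rw [h0, map_zero, ← e1] at e2
    exact hva e2
  have hu : ∀ x : K, v.valuation K x = v.valuation K a → v.valuation K (x / a) = 1 := by
    intro x hx
    rw [map_div₀, hx, div_self hva]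
  have hA := hu a rfl
  have hB := hu b e1.symm
  have hC := hu c (by rw [← e2, ← e1])
  have hsum : (a / a) ^ p + (b / a) ^ p + (c / a) ^ p = 0 := by
    rw [div_pow, div_pow, div_pow, ← add_div, ← add_div, h, zero_div]
  have hs := val_sum_lt p v hv (a / a) (b / a) (c / a) hA.le hB.le hC.le hsum
  have h4 : v.valuation K (4 : K) = 1 := by
    have hle : ∀ n : ℕ, v.valuation K (n : K) ≤ 1 := by
      intro n
      have := v.valuation_le_one (K := K) (n : 𝓞 K)
      simpa using this
    have h4' : (4 : 𝓞 K) ∉ v.asIdeal := by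
      intro hmem
      have h3 : IsCoprime (p : ℤ) ((4 : ℕ) : ℤ) := by
        apply Nat.isCoprime_iff_coprime.2
        have : Nat.Coprime p 2 := (Nat.coprime_primes Fact.out Nat.prime_two).2 hp2
        have h5 := this.pow_right 2
        simpa using h5
      have h4 := h3.map (algebraMap ℤ (𝓞 K))
      rw [map_natCast, map_natCast] at h4
      obtain ⟨x, y, hxy⟩ := h4
      apply v.isPrime.ne_top
      rw [Ideal.eq_top_iff_one, ← hxy]
      refine v.asIdeal.add_mem (v.asIdeal.mul_mem_left _ hv) (v.asIdeal.mul_mem_left _ ?_)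
      simpa using hmem
    by_contra hne
    have hlt : v.valuation K (4 : K) < 1 := by
      refine lt_of_le_of_ne ?_ hne
      have := hle 4
      simpa using this
    apply h4'
    rw [← v.valuation_lt_one_iff_mem (K := K)]
    have e4 : algebraMap (𝓞 K) K 4 = 4 := map_ofNat _ 4
    change v.valuation K (algebraMap (𝓞 K) K 4) < 1
    rw [e4]
    exact hlt
  have e : (4 : K) * ((a * b + b * c + c * a) / a ^ 2)
      = -(((a - b) / c) ^ 2 + 3) * (c / a) ^ 2
        + (a / a + b / a + c / a) * (a / a + b / a + 3 * (c / a)) := by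
    field_simp
    ring
  have h3 : v.valuation K ((4 : K) * ((a * b + b * c + c * a) / a ^ 2)) < 1 := by
    rw [e]
    refine Valuation.map_add_lt _ ?_ ?_
    · rw [map_mul, Valuation.map_neg, map_pow, hC, one_pow, mul_one]
      exact ht
    · have h5 : v.valuation K (a / a + b / a + 3 * (c / a)) ≤ 1 := by
        have h3' : v.valuation K (3 : K) ≤ 1 := by
          have h6 := v.valuation_le_one (K := K) (3 : 𝓞 K)
          have e3 : algebraMap (𝓞 K) K 3 = 3 := map_ofNat _ 3
          change v.valuation K (algebraMap (𝓞 K) K 3) ≤ 1 at h6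
          rwa [e3] at h6
        refine (Valuation.map_add _ _ _).trans (max_le ?_ ?_)
        · exact (Valuation.map_add _ _ _).trans (max_le hA.le hB.le)
        · rw [map_mul, hC, mul_one]; exact h3'
      rw [map_mul]
      calc v.valuation K (a / a + b / a + c / a) * v.valuation K (a / a + b / a + 3 * (c / a))
          ≤ v.valuation K (a / a + b / a + c / a) * 1 := mul_le_mul_right h5 _
        _ < 1 := by rwa [mul_one]
  rw [map_mul, h4, one_mul, map_div₀, map_pow] at h3
  exact (div_lt_one₀ (zero_lt_iff.mpr (pow_ne_zero 2 hva))).mp h3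

/-- a place with residue field `𝔽₂` excludes the solutions which are `1 : ω : ω²` above `p`, for every
non-Wieferich prime `p`, unramified in `K` and prime to the class number -/
theorem even_f2 (p : ℕ) [Fact p.Prime] (K : Type*) [Field K] [NumberField K]
    (hp2 : p ≠ 2) (hu : Unr p K) (hcl : ¬ p ∣ NumberField.classNumber K)
    (a b c : K) (ha : a ≠ 0) (hb : b ≠ 0) (hc : c ≠ 0) (h : a ^ p + b ^ p + c ^ p = 0)
    (hfc : ∀ v : HeightOneSpectrum (𝓞 K), (p : 𝓞 K) ∈ v.asIdeal →
      v.valuation K a = v.valuation K b ∧ v.valuation K b = v.valuation K c)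
    (ht : ∀ v : HeightOneSpectrum (𝓞 K), (p : 𝓞 K) ∈ v.asIdeal →
      v.valuation K (((a - b) / c) ^ 2 + 3) < 1)
    (Q : HeightOneSpectrum (𝓞 K)) (hQ : Nat.card (𝓞 K ⧸ Q.asIdeal) = 2)
    (hW : ¬ p ^ 2 ∣ 2 ^ (p - 1) - 1) : False := by
  have hq : ∀ u v : ZMod 2, u ≠ 0 → v ≠ 0 → u ^ p + v ^ p + 1 ≠ 0 := by
    intro u v hu hv
    have h2 : ∀ x : ZMod 2, x ≠ 0 → x = 1 := by decide
    rw [h2 u hu, h2 v hv, one_pow]
    decide
  have h1 := om_fin p K hp2 hu hcl a b c ha hb hc h hfc
    (fun v hv => om_of_t p K hp2 a b c ha h v hv (hfc v hv) (ht v hv)) Q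
    (sp_notMem p Fact.out K 2 Nat.prime_two hp2.symm Q hQ)
    (sp_not_all_eq p K 2 Nat.prime_two Q hQ hq a b c hc h)
  rw [hQ] at h1
  exact hW h1

end H65CQ
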